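import Pool.Agent.Helper35.SP.Real

/-! Project SP: the T3 facts, the integer box checker and its soundness. -/

set_option autoImplicit false

open Pool.Agent.Helper89.SP

namespace Pool.Agent.Helper35.SP

/-- the scale -/
def NN : ℕ := 10000000

lemma NN_cast : ((NN : ℕ) : ℝ) = 10000000 := by norm_num [NN]

lemma NN_pos : (0:ℝ) < (NN : ℕ) := by rw [NN_cast]; norm_num

lemma up_ge (x : ℕ) {y : ℕ} (hy : 0 < y) : (x : ℝ) / y ≤ ((x / y : ℕ) : ℝ) + 1 := by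
  have hy' : (0:ℝ) < y := by exact_mod_cast hy
  rw [div_le_iff₀ hy']
  have h1 : x ≤ (x / y + 1) * y := by
    have := Nat.div_add_mod x y
    have h2 := Nat.mod_lt x hy
    have h3 : (x / y + 1) * y = y * (x / y) + y := by ring
    omega
  exact_mod_cast h1

/-- `0 < Ev`, scaled -/
def evOK (f a al be κ e c s w : ℕ) : Bool :=
  Nat.blt (288 * f * w + 6 * al * a * (s * s + e * e) + 2 * be * a * (NN * NN - c) + 144 * κ * (NN * NN))
    (288 * f * (s * s) + be * a * (s * s + w) + 12 * al * a * s * e)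

lemma evOK_pos {f a al be κ e c s w : ℕ} (h : evOK f a al be κ e c s w = true) :
    0 < Ev ((f : ℝ) / NN) ((a : ℝ) / NN) al be ((κ : ℝ) / NN) ((e : ℝ) / NN) ((c : ℝ) / NN ^ 2) ((s : ℝ) / NN)
      ((w : ℝ) / NN ^ 2) := by
  have hn := NN_pos
  have h1 : 288 * f * w + 6 * al * a * (s * s + e * e) + 2 * be * a * (NN * NN - c) + 144 * κ * (NN * NN) <
      288 * f * (s * s) + be * a * (s * s + w) + 12 * al * a * s * e := by
    unfold evOK at h
    simpa [Nat.blt_eq] using h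
  have h2 : 288 * (f:ℝ) * w + 6 * al * a * (s * s + e * e) + 2 * be * a * (NN * NN - c) + 144 * κ * (NN * NN) <
      288 * f * (s * s) + be * a * (s * s + w) + 12 * al * a * s * e := by
    have h3 : ((NN:ℝ) * NN - c) ≤ ((NN * NN - c : ℕ) : ℝ) := by
      have : NN * NN ≤ (NN * NN - c) + c := by omega
      have h4 : ((NN * NN : ℕ) : ℝ) ≤ ((NN * NN - c : ℕ) : ℝ) + (c : ℝ) := by exact_mod_cast this
      push_cast at h4 ⊢
      linarith
    have h4 : (288 * (f:ℝ) * w + 6 * al * a * (s * s + e * e) + 2 * be * a * ((NN * NN - c : ℕ) : ℝ) +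
        144 * κ * (NN * NN)) < 288 * f * (s * s) + be * a * (s * s + w) + 12 * al * a * s * e := by
      exact_mod_cast h1
    have h5 : 2 * (be:ℝ) * a * (NN * NN - c) ≤ 2 * be * a * ((NN * NN - c : ℕ) : ℝ) :=
      mul_le_mul_of_nonneg_left h3 (by positivity)
    linarith
  have h3 : Ev ((f : ℝ) / NN) ((a : ℝ) / NN) al be ((κ : ℝ) / NN) ((e : ℝ) / NN) ((c : ℝ) / NN ^ 2) ((s : ℝ) / NN)
      ((w : ℝ) / NN ^ 2) = ((288 * f * (s * s) + be * a * (s * s + w) + 12 * al * a * s * e) -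
        (288 * (f:ℝ) * w + 6 * al * a * (s * s + e * e) + 2 * be * a * (NN * NN - c) + 144 * κ * (NN * NN))) /
          (NN : ℝ) ^ 3 := by
    unfold Ev
    field_simp
    ring
  rw [h3]
  exact div_pos (by linarith) (by positivity)

/-- the vertices -/
def vert (f a al be κ e c lo hi m : ℕ) : Bool :=
  evOK f a al be κ e c lo ((2 * m - lo) * (2 * m - lo)) && evOK f a al be κ e c hi ((2 * m - hi) * (2 * m - hi)) &&
    (Nat.ble (be * a) (288 * f) || (Nat.ble (288 * f + be * a) (6 * al * a) && evOK f a al be κ e c lo 0 &&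
      evOK f a al be κ e c hi 0))

lemma vert_sound {f a al be κ e c lo hi m : ℕ} (hlo : lo ≤ 2 * m) (hhi : hi ≤ 2 * m)
    (h : vert f a al be κ e c lo hi m = true) :
    Vert ((f : ℝ) / NN) ((a : ℝ) / NN) al be ((κ : ℝ) / NN) ((e : ℝ) / NN) ((c : ℝ) / NN ^ 2) ((lo : ℝ) / NN)
      ((hi : ℝ) / NN) ((m : ℝ) / NN) := by
  have hn := NN_pos
  unfold vert at h
  simp only [Bool.and_eq_true, Bool.or_eq_true, Nat.ble_eq] at h
  obtain ⟨⟨h1, h2⟩, h3⟩ := h
  have hw : ∀ x : ℕ, x ≤ 2 * m →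
      (2 * ((m : ℝ) / NN) - (x : ℝ) / NN) ^ 2 = (((2 * m - x) * (2 * m - x) : ℕ) : ℝ) / NN ^ 2 := by
    intro x hx
    rw [Nat.cast_mul, Nat.cast_sub hx]
    push_cast
    field_simp
  have h0 : ((0 : ℕ) : ℝ) / (NN : ℝ) ^ 2 = 0 := by simp
  refine ⟨?_, ?_, ?_⟩
  · rw [hw lo hlo]; exact evOK_pos h1
  · rw [hw hi hhi]; exact evOK_pos h2
  · rcases h3 with h3 | ⟨⟨h3, h4⟩, h5⟩
    · left
      have : (be : ℝ) * a ≤ 288 * f := by exact_mod_cast h3
      have e1 : (be : ℝ) * ((a : ℝ) / NN) = (be * a) / NN := by ring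
      have e2 : 288 * ((f : ℝ) / NN) = (288 * f) / NN := by ring
      rw [e1, e2]
      exact div_le_div_of_nonneg_right this hn.le
    · right
      refine ⟨?_, ?_, ?_⟩
      · have : 288 * (f : ℝ) + be * a ≤ 6 * al * a := by exact_mod_cast h3
        have e1 : 288 * ((f : ℝ) / NN) + (be : ℝ) * ((a : ℝ) / NN) = (288 * f + be * a) / NN := by ring
        have e2 : 6 * (al : ℝ) * ((a : ℝ) / NN) = (6 * al * a) / NN := by ring
        rw [e1, e2]
        exact div_le_div_of_nonneg_right this hn.le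
      · have := evOK_pos h4
        rw [h0] at this; exact this
      · have := evOK_pos h5
        rw [h0] at this; exact this

/-- one box, after the quantities are computed -/
def core (f a V B G C1 C2 l m t0 t1 p0 p1 : ℕ) : Bool :=
  Nat.ble (4 * V * NN) (l * B) && Nat.blt (2 * m - l) B && Nat.blt 0 G && Nat.ble p1 t0 && Nat.ble p0 t1 &&
  ((vert f a 24 24 (C1 * 1647000 * V ^ 3 / B ^ 4 + a * 1647000 * V ^ 3 / G ^ 4 + 2) (t0 - p1) (p0 * p0) l (2 * m) m &&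
    vert f a 24 24 (C1 * 1647000 * V ^ 3 / B ^ 4 + a * 1647000 * V ^ 3 / G ^ 4 + 2) (t1 - p0) (p0 * p0) l (2 * m) m) ||
  (((Nat.blt (t1 - p0) l ||
    (Nat.ble m l && evOK f a 0 12 (C2 * 1647000 * V ^ 3 / B ^ 4 + a * 1647000 * V ^ 3 / G ^ 4 + 2) 0 (p0 * p0) l
      ((2 * m - l) * (2 * m - l)) && (Nat.ble (12 * a) (288 * f) ||
        evOK f a 0 12 (C2 * 1647000 * V ^ 3 / B ^ 4 + a * 1647000 * V ^ 3 / G ^ 4 + 2) 0 (p0 * p0) l 0))) &&
    (Nat.blt (2 * m) (max l (t0 - p1)) || [(27, 60), (30, 36), (36, 24), (42, 20), (48, 18), (60, 16), (72, 15)].any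
      (fun x => vert f a x.1 x.2 (C2 * 1647000 * V ^ 3 / B ^ 4 + a * 1647000 * V ^ 3 / G ^ 4 + 2) (t0 - p1) (p0 * p0)
        (max l (t0 - p1)) (2 * m) m)))))

/-- one box -/
def leaf (a0 a1 : ℕ) (fF : ℕ → ℕ) (tp : Bool) (t0 t1 p0 p1 : ℕ) : Bool :=
  let l := (a0 - a1 * p1) / 10
  let m := min p1 (t1 - p0)
  Nat.blt (2 * m) l || Nat.blt (2 * NN * NN) (2 * p0 * p0 + l * l) || (tp && Nat.ble (NN * NN) (t0 * p0)) ||
    core (fF t1) (NN - t0 * p0 / NN) ((2 * NN * NN - 2 * p0 * p0 - l * l) / (6 * NN) + 1) (t0 + p0 - l)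
      (t0 + l - p1) (4 * t1 * p1 / NN + 1 - 2 * NN) (3 * t1 * p1 / NN + 1 - NN) l m t0 t1 p0 p1

/-- bisection of the longer side -/
def chk (leaf : ℕ → ℕ → ℕ → ℕ → Bool) (fuel : ℕ) : ℕ → ℕ → ℕ → ℕ → Bool :=
  Nat.rec (fun _ _ _ _ => false) (fun _ ih t0 t1 p0 p1 =>
    bif leaf t0 t1 p0 p1 then true else
    bif Nat.blt (p1 - p0) (t1 - t0) then
      ih t0 ((t0 + t1) / 2) p0 p1 && ih ((t0 + t1) / 2) t1 p0 p1
    else ih t0 t1 p0 ((p0 + p1) / 2) && ih t0 t1 ((p0 + p1) / 2) p1) fuel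

lemma chk_sound {leaf : ℕ → ℕ → ℕ → ℕ → Bool} {Q : ℝ → ℝ → Prop}
    (hleaf : ∀ t0 t1 p0 p1 : ℕ, leaf t0 t1 p0 p1 = true → ∀ t p : ℝ, (t0 : ℝ) / NN ≤ t → t ≤ (t1 : ℝ) / NN →
      (p0 : ℝ) / NN ≤ p → p ≤ (p1 : ℝ) / NN → Q t p) (fuel : ℕ) :
    ∀ t0 t1 p0 p1 : ℕ, chk leaf fuel t0 t1 p0 p1 = true → ∀ t p : ℝ, (t0 : ℝ) / NN ≤ t → t ≤ (t1 : ℝ) / NN →
      (p0 : ℝ) / NN ≤ p → p ≤ (p1 : ℝ) / NN → Q t p := by
  induction fuel with
  | zero =>
    intro t0 t1 p0 p1 h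
    simp [chk] at h
  | succ k ih =>
    intro t0 t1 p0 p1 h t p h1 h2 h3 h4
    have hu : chk leaf (k + 1) t0 t1 p0 p1 = (bif leaf t0 t1 p0 p1 then true else
      bif Nat.blt (p1 - p0) (t1 - t0) then
        chk leaf k t0 ((t0 + t1) / 2) p0 p1 && chk leaf k ((t0 + t1) / 2) t1 p0 p1
      else chk leaf k t0 t1 p0 ((p0 + p1) / 2) && chk leaf k t0 t1 ((p0 + p1) / 2) p1) := rfl
    rw [hu] at h
    cases hl : leaf t0 t1 p0 p1 with
    | true => exact hleaf _ _ _ _ hl t p h1 h2 h3 h4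
    | false =>
      rw [hl, cond_false] at h
      cases hb : Nat.blt (p1 - p0) (t1 - t0) with
      | true =>
        rw [hb, cond_true, Bool.and_eq_true] at h
        rcases le_total t (((((t0 + t1) / 2 : ℕ)) : ℝ) / NN) with hm | hm
        · exact ih _ _ _ _ h.1 t p h1 hm h3 h4
        · exact ih _ _ _ _ h.2 t p hm h2 h3 h4
      | false =>
        rw [hb, cond_false, Bool.and_eq_true] at h
        rcases le_total p (((((p0 + p1) / 2 : ℕ)) : ℝ) / NN) with hm | hm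
        · exact ih _ _ _ _ h.1 t p h1 h2 h3 hm
        · exact ih _ _ _ _ h.2 t p h1 h2 hm h4

end Pool.Agent.Helper35.SP
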