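import Pool.Agent.Helper35.SP.Sound

/-! Project SP: the T3 facts, lower bounds of the value functions. -/

set_option autoImplicit false

open Pool.Agent.Helper89.SP

namespace Pool.Agent.Helper35.SP

/-- lower bound of `10^7 Mf` -/
def fM (t1 : ℕ) : ℕ := (3 * NN * NN - 17320509 * t1) ^ 3 / (24 * NN ^ 5)

/-- lower bound of `10^7 T4` -/
def f4 (t1 : ℕ) : ℕ := (2 * NN - t1) ^ 4 / (12 * NN ^ 3)

/-- lower bound of `10^7 T5` -/
def f5 (t1 : ℕ) : ℕ := (5 * NN * NN - 22360680 * t1) ^ 5 / (1920 * NN ^ 9)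

lemma sqrt3_lt : √(3:ℝ) < 1.7320509 := by
  rw [Real.sqrt_lt (by norm_num) (by norm_num)]; norm_num

lemma sqrt5_lt : √(5:ℝ) < 2.2360680 := by
  rw [Real.sqrt_lt (by norm_num) (by norm_num)]; norm_num

lemma sqrt5_gt : 2.236 < √(5:ℝ) := by
  rw [Real.lt_sqrt (by norm_num)]; norm_num

lemma fM_le (t1 : ℕ) (t : ℝ) (hR : 0 ≤ t ∧ t ≤ 1.3) (ht : t ≤ (t1 : ℝ) / NN) :
    ((fM t1 : ℕ) : ℝ) / NN ≤ Mf t := by
  have hn := NN_pos
  have hy0 : 0 ≤ 3 - √3 * t := by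
    have := mul_le_mul sqrt3_lt.le hR.2 hR.1 (by norm_num : (0:ℝ) ≤ 1.7320509)
    norm_num at this
    linarith
  have h1 : ((fM t1 : ℕ) : ℝ) ≤ (((3 * NN * NN - 17320509 * t1 : ℕ) : ℝ)) ^ 3 / (24 * (NN : ℝ) ^ 5) := by
    have : (((3 * NN * NN - 17320509 * t1) ^ 3 / (24 * NN ^ 5) : ℕ) : ℝ) ≤
      (((3 * NN * NN - 17320509 * t1) ^ 3 : ℕ) : ℝ) / ((24 * NN ^ 5 : ℕ) : ℝ) := Nat.cast_div_le
    push_cast at this
    unfold fM
    push_cast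
    exact this
  have h2 : ((3 * NN * NN - 17320509 * t1 : ℕ) : ℝ) / (NN * NN) ≤ 3 - √3 * t := by
    rcases le_total (17320509 * t1) (3 * NN * NN) with hle | hle
    · rw [Nat.cast_sub hle]
      have h3 : √3 * t ≤ 1.7320509 * ((t1 : ℝ) / NN) := mul_le_mul sqrt3_lt.le ht hR.1 (by norm_num)
      have h4 : (((3 * NN * NN : ℕ) : ℝ) - ((17320509 * t1 : ℕ) : ℝ)) / (NN * NN) =
          3 - 1.7320509 * ((t1 : ℝ) / NN) := by
        push_cast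
        have h5 : (1.7320509 : ℝ) = 17320509 / NN := by rw [NN_cast]; norm_num
        rw [h5]
        field_simp
      rw [h4]
      linarith
    · rw [Nat.sub_eq_zero_of_le hle]
      simpa using hy0
  have h3 := pow_le_pow_left₀ (by positivity) h2 3
  calc ((fM t1 : ℕ) : ℝ) / NN ≤ (((3 * NN * NN - 17320509 * t1 : ℕ) : ℝ)) ^ 3 / (24 * (NN : ℝ) ^ 5) / NN :=
        div_le_div_of_nonneg_right h1 hn.le
    _ = (((3 * NN * NN - 17320509 * t1 : ℕ) : ℝ) / (NN * NN)) ^ 3 / 24 := by field_simp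
    _ ≤ Mf t := by
        unfold Mf
        exact div_le_div_of_nonneg_right h3 (by norm_num)

lemma f4_le (t1 : ℕ) (t : ℝ) (hR : t ≤ 2) (ht : t ≤ (t1 : ℝ) / NN) :
    ((f4 t1 : ℕ) : ℝ) / NN ≤ T4 t := by
  have hn := NN_pos
  have h1 : ((f4 t1 : ℕ) : ℝ) ≤ (((2 * NN - t1 : ℕ) : ℝ)) ^ 4 / (12 * (NN : ℝ) ^ 3) := by
    have : (((2 * NN - t1) ^ 4 / (12 * NN ^ 3) : ℕ) : ℝ) ≤
      (((2 * NN - t1) ^ 4 : ℕ) : ℝ) / ((12 * NN ^ 3 : ℕ) : ℝ) := Nat.cast_div_le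
    push_cast at this
    unfold f4
    push_cast
    exact this
  have h2 : ((2 * NN - t1 : ℕ) : ℝ) / NN ≤ 2 - t := by
    rcases le_total t1 (2 * NN) with hle | hle
    · rw [Nat.cast_sub hle]
      have h4 : (((2 * NN : ℕ) : ℝ) - (t1 : ℝ)) / NN = 2 - (t1 : ℝ) / NN := by
        push_cast
        field_simp
      rw [h4]
      linarith
    · rw [Nat.sub_eq_zero_of_le hle]
      simpa using hR
  have h3 := pow_le_pow_left₀ (by positivity) h2 4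
  calc ((f4 t1 : ℕ) : ℝ) / NN ≤ (((2 * NN - t1 : ℕ) : ℝ)) ^ 4 / (12 * (NN : ℝ) ^ 3) / NN :=
        div_le_div_of_nonneg_right h1 hn.le
    _ = (((2 * NN - t1 : ℕ) : ℝ) / NN) ^ 4 / 12 := by field_simp
    _ ≤ T4 t := by
        unfold T4
        exact div_le_div_of_nonneg_right h3 (by norm_num)

lemma f5_le (t1 : ℕ) (t : ℝ) (hR : 1.6427 ≤ t ∧ t ≤ 1.9) (ht : t ≤ (t1 : ℝ) / NN) :
    ((f5 t1 : ℕ) : ℝ) / NN ≤ T5 t := by
  have hn := NN_pos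
  have hy0 : 0 ≤ 5 - √5 * t := by
    have := mul_le_mul sqrt5_lt.le hR.2 (by linarith [hR.1]) (by norm_num : (0:ℝ) ≤ 2.2360680)
    norm_num at this
    linarith
  have hmax : max (3 - √5 * t) 0 = 0 := by
    refine max_eq_right ?_
    have := mul_le_mul sqrt5_gt.le hR.1 (by norm_num) (by positivity : (0:ℝ) ≤ √5)
    norm_num at this
    linarith
  have h1 : ((f5 t1 : ℕ) : ℝ) ≤ (((5 * NN * NN - 22360680 * t1 : ℕ) : ℝ)) ^ 5 / (1920 * (NN : ℝ) ^ 9) := by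
    have : (((5 * NN * NN - 22360680 * t1) ^ 5 / (1920 * NN ^ 9) : ℕ) : ℝ) ≤
      (((5 * NN * NN - 22360680 * t1) ^ 5 : ℕ) : ℝ) / ((1920 * NN ^ 9 : ℕ) : ℝ) := Nat.cast_div_le
    push_cast at this
    unfold f5
    push_cast
    exact this
  have h2 : ((5 * NN * NN - 22360680 * t1 : ℕ) : ℝ) / (NN * NN) ≤ 5 - √5 * t := by
    rcases le_total (22360680 * t1) (5 * NN * NN) with hle | hle
    · rw [Nat.cast_sub hle]
      have h3 : √5 * t ≤ 2.2360680 * ((t1 : ℝ) / NN) :=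
        mul_le_mul sqrt5_lt.le ht (by linarith [hR.1]) (by norm_num)
      have h4 : (((5 * NN * NN : ℕ) : ℝ) - ((22360680 * t1 : ℕ) : ℝ)) / (NN * NN) =
          5 - 2.2360680 * ((t1 : ℝ) / NN) := by
        push_cast
        have h5 : (2.2360680 : ℝ) = 22360680 / NN := by rw [NN_cast]; norm_num
        rw [h5]
        field_simp
      rw [h4]
      linarith
    · rw [Nat.sub_eq_zero_of_le hle]
      simpa using hy0
  have h3 := pow_le_pow_left₀ (by positivity) h2 5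
  calc ((f5 t1 : ℕ) : ℝ) / NN ≤ (((5 * NN * NN - 22360680 * t1 : ℕ) : ℝ)) ^ 5 / (1920 * (NN : ℝ) ^ 9) / NN :=
        div_le_div_of_nonneg_right h1 hn.le
    _ = (((5 * NN * NN - 22360680 * t1 : ℕ) : ℝ) / (NN * NN)) ^ 5 / 1920 := by field_simp
    _ ≤ T5 t := by
        unfold T5
        rw [hmax]
        refine div_le_div_of_nonneg_right ?_ (by norm_num)
        have : (0:ℝ) ^ 5 = 0 := by norm_num
        rw [this]
        linarith

/-- the general form -/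
lemma beats_of_chk {a0 a1 : ℕ} {fF : ℕ → ℕ} {tp : Bool} {F : ℝ → ℝ} {R : ℝ → Prop} {fuel t0 t1 p0 p1 : ℕ}
    (hF : ∀ (t1 : ℕ) (t : ℝ), R t → t ≤ (t1 : ℝ) / NN → ((fF t1 : ℕ) : ℝ) / NN ≤ F t)
    (h : chk (leaf a0 a1 fF tp) fuel t0 t1 p0 p1 = true) {t p q r : ℝ} (hR : R t) (hy : Hyp a0 a1 tp t p q r)
    (ht0 : (t0 : ℝ) / NN ≤ t) (ht1 : t ≤ (t1 : ℝ) / NN) (hp0 : (p0 : ℝ) / NN ≤ p) (hp1 : p ≤ (p1 : ℝ) / NN) :
    Beats t p q r (F t) := by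
  have := chk_sound (leaf := leaf a0 a1 fF tp)
    (Q := fun t p => ∀ q r : ℝ, R t → Hyp a0 a1 tp t p q r → Beats t p q r (F t))
    (fun t0 t1 p0 p1 h t p h1 h2 h3 h4 q r hR hy => leaf_sound hF h hR hy h1 h2 h3 h4) fuel t0 t1 p0 p1 h t p
    ht0 ht1 hp0 hp1
  exact this q r hR hy

end Pool.Agent.Helper35.SP
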