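import Pool.Agent.Helper35.SP.FBound

/-! Project SP: fact_T3_2, fact_T3_3, fact_T3_8, fact_T3_8a. -/

set_option autoImplicit false

open Pool.Agent.Helper35.SP

namespace Pool.Agent.Helper35.SP

lemma c2 : chk (leaf 129150000 6 fM false) 30 10600000 10800000 4975000 5450000 = true := by decide +kernel
lemma c3 : chk (leaf 176775000 15 fM false) 30 10800000 11000000 5065000 5500000 = true := by decide +kernel
lemma c8 : chk (leaf 95000000 0 fM false) 30 10200000 11000000 5400000 7200000 = true := by decide +kernel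
lemma c8a : chk (leaf 95000000 0 f4 false) 30 11000000 12000000 5400000 7200000 = true := by decide +kernel

end Pool.Agent.Helper35.SP

namespace Pool.Agent.Helper89.SP

theorem fact_T3_2 {t p q r : ℝ} (hp0 : 0.4975 ≤ p) (hp1 : p ≤ 0.545) (ht0 : 1.06 ≤ t) (ht1 : t ≤ 1.08)
    (hr : 0 < r) (hrq : r ≤ q) (hqp : q ≤ p) (hpq : p + q ≤ t) (hsq : p ^ 2 + q ^ 2 + r ^ 2 ≤ 1)
    (hS : S2 p ≤ q + r) : Beats t p q r (Mf t) := by
  refine beats_of_chk (R := fun t => 0 ≤ t ∧ t ≤ 1.3) fM_le c2 ⟨by linarith, by linarith⟩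
    ⟨hr, hrq, hqp, hpq, hsq, ?_, by simp⟩ ?_ ?_ ?_ ?_ <;> rw [NN_cast]
  · unfold S2 at hS
    push_cast
    linarith
  · push_cast; linarith
  · push_cast; linarith
  · push_cast; linarith
  · push_cast; linarith

theorem fact_T3_3 {t p q r : ℝ} (hp0 : 0.5065 ≤ p) (hp1 : p ≤ 0.55) (ht0 : 1.08 ≤ t) (ht1 : t ≤ 1.1)
    (hr : 0 < r) (hrq : r ≤ q) (hqp : q ≤ p) (hpq : p + q ≤ t) (hsq : p ^ 2 + q ^ 2 + r ^ 2 ≤ 1)
    (hS : S3 p ≤ q + r) : Beats t p q r (Mf t) := by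
  refine beats_of_chk (R := fun t => 0 ≤ t ∧ t ≤ 1.3) fM_le c3 ⟨by linarith, by linarith⟩
    ⟨hr, hrq, hqp, hpq, hsq, ?_, by simp⟩ ?_ ?_ ?_ ?_ <;> rw [NN_cast]
  · unfold S3 at hS
    push_cast
    linarith
  · push_cast; linarith
  · push_cast; linarith
  · push_cast; linarith
  · push_cast; linarith

theorem fact_T3_8 {t p q r : ℝ} (hp0 : 0.54 ≤ p) (hp1 : p ≤ 0.72) (ht0 : 1.02 ≤ t) (ht1 : t ≤ 1.1)
    (hr : 0 < r) (hrq : r ≤ q) (hqp : q ≤ p) (hpq : p + q ≤ t) (hsq : p ^ 2 + q ^ 2 + r ^ 2 ≤ 1)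
    (hS : 0.95 ≤ q + r) : Beats t p q r (Mf t) := by
  refine beats_of_chk (R := fun t => 0 ≤ t ∧ t ≤ 1.3) fM_le c8 ⟨by linarith, by linarith⟩
    ⟨hr, hrq, hqp, hpq, hsq, ?_, by simp⟩ ?_ ?_ ?_ ?_ <;> rw [NN_cast]
  · push_cast
    linarith
  · push_cast; linarith
  · push_cast; linarith
  · push_cast; linarith
  · push_cast; linarith

theorem fact_T3_8a {t p q r : ℝ} (hp0 : 0.54 ≤ p) (hp1 : p ≤ 0.72) (ht0 : 1.1 ≤ t) (ht1 : t ≤ 1.2)
    (hr : 0 < r) (hrq : r ≤ q) (hqp : q ≤ p) (hpq : p + q ≤ t) (hsq : p ^ 2 + q ^ 2 + r ^ 2 ≤ 1)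
    (hS : 0.95 ≤ q + r) : Beats t p q r (T4 t) := by
  refine beats_of_chk (R := fun t => t ≤ 2) f4_le c8a (by linarith)
    ⟨hr, hrq, hqp, hpq, hsq, ?_, by simp⟩ ?_ ?_ ?_ ?_ <;> rw [NN_cast]
  · push_cast
    linarith
  · push_cast; linarith
  · push_cast; linarith
  · push_cast; linarith
  · push_cast; linarith

end Pool.Agent.Helper89.SP
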