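import Pool.Agent.Helper35.SP.FBound

/-! Project SP: fact_T3_6, fact_T3_6a, fact_T3_7, fact_T3_7a by the box checker. -/

set_option autoImplicit false

open Pool.Agent.Helper35.SP

namespace Pool.Agent.Helper35.SP

lemma c6 : chk (leaf 245700000 26 f4 true) 30 13500000 16428000 5350000 5800000 = true := by decide +kernel
lemma c6a : chk (leaf 95000000 0 f4 true) 30 13500000 16428000 5800000 6600000 = true := by decide +kernel
lemma c7 : chk (leaf 245700000 26 f5 true) 30 16427000 18260000 5350000 5800000 = true := by decide +kernel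
lemma c7a : chk (leaf 95000000 0 f5 true) 30 16427000 18260000 5800000 6600000 = true := by decide +kernel

end Pool.Agent.Helper35.SP

namespace Pool.Agent.Helper89.SP

theorem fact_T3_6 {t p q r : ℝ} (hp0 : 0.535 ≤ p) (hp1 : p ≤ 0.58) (ht0 : 1.35 ≤ t) (ht1 : t ≤ 1.6428)
    (hr : 0 < r) (hrq : r ≤ q) (hqp : q ≤ p) (hpq : p + q ≤ t) (hsq : p ^ 2 + q ^ 2 + r ^ 2 ≤ 1)
    (htp : t * p < 1) (hS : S6 p ≤ q + r) : Beats t p q r (T4 t) := by
  refine beats_of_chk (R := fun t => t ≤ 2) f4_le c6 (by linarith)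
    ⟨hr, hrq, hqp, hpq, hsq, ?_, fun _ => htp⟩ ?_ ?_ ?_ ?_ <;> rw [NN_cast]
  · unfold S6 at hS
    push_cast
    linarith
  · push_cast; linarith
  · push_cast; linarith
  · push_cast; linarith
  · push_cast; linarith

theorem fact_T3_6a {t p q r : ℝ} (hp0 : 0.58 ≤ p) (hp1 : p ≤ 0.66) (ht0 : 1.35 ≤ t) (ht1 : t ≤ 1.6428)
    (hr : 0 < r) (hrq : r ≤ q) (hqp : q ≤ p) (hpq : p + q ≤ t) (hsq : p ^ 2 + q ^ 2 + r ^ 2 ≤ 1)
    (htp : t * p < 1) (hS : 0.95 ≤ q + r) : Beats t p q r (T4 t) := by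
  refine beats_of_chk (R := fun t => t ≤ 2) f4_le c6a (by linarith)
    ⟨hr, hrq, hqp, hpq, hsq, ?_, fun _ => htp⟩ ?_ ?_ ?_ ?_ <;> rw [NN_cast]
  · push_cast
    linarith
  · push_cast; linarith
  · push_cast; linarith
  · push_cast; linarith
  · push_cast; linarith

theorem fact_T3_7 {t p q r : ℝ} (hp0 : 0.535 ≤ p) (hp1 : p ≤ 0.58) (ht0 : 1.6427 ≤ t) (ht1 : t ≤ 1.826)
    (hr : 0 < r) (hrq : r ≤ q) (hqp : q ≤ p) (hpq : p + q ≤ t) (hsq : p ^ 2 + q ^ 2 + r ^ 2 ≤ 1)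
    (htp : t * p < 1) (hS : S6 p ≤ q + r) : Beats t p q r (T5 t) := by
  refine beats_of_chk (R := fun t => 1.6427 ≤ t ∧ t ≤ 1.9) f5_le c7 ⟨by linarith, by linarith⟩
    ⟨hr, hrq, hqp, hpq, hsq, ?_, fun _ => htp⟩ ?_ ?_ ?_ ?_ <;> rw [NN_cast]
  · unfold S6 at hS
    push_cast
    linarith
  · push_cast; linarith
  · push_cast; linarith
  · push_cast; linarith
  · push_cast; linarith

theorem fact_T3_7a {t p q r : ℝ} (hp0 : 0.58 ≤ p) (hp1 : p ≤ 0.66) (ht0 : 1.6427 ≤ t) (ht1 : t ≤ 1.826)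
    (hr : 0 < r) (hrq : r ≤ q) (hqp : q ≤ p) (hpq : p + q ≤ t) (hsq : p ^ 2 + q ^ 2 + r ^ 2 ≤ 1)
    (htp : t * p < 1) (hS : 0.95 ≤ q + r) : Beats t p q r (T5 t) := by
  refine beats_of_chk (R := fun t => 1.6427 ≤ t ∧ t ≤ 1.9) f5_le c7a ⟨by linarith, by linarith⟩
    ⟨hr, hrq, hqp, hpq, hsq, ?_, fun _ => htp⟩ ?_ ?_ ?_ ?_ <;> rw [NN_cast]
  · push_cast
    linarith
  · push_cast; linarith
  · push_cast; linarith
  · push_cast; linarith
  · push_cast; linarith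

end Pool.Agent.Helper89.SP
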