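import Pool.Agent.Helper89.SP.Defs

/-! Project SP: the T3 facts, real-variable part of the box checker.
`S = q + r`, `W = (q - r)^2`; per box only the vertices of the region in `(S, W)` are evaluated. -/

set_option autoImplicit false

open Pool.Agent.Helper89.SP

namespace Pool.Agent.Helper35.SP

/-- `144 (8 q r F - A (al/24 (S - e)^2 + be/24 (1 - c - q^2 - r^2)/3) - κ)` -/
noncomputable def Ev (F A al be κ e c S W : ℝ) : ℝ :=
  288 * F * (S ^ 2 - W) - 6 * al * A * (S - e) ^ 2 - be * A * (2 * (1 - c) - S ^ 2 - W) - 144 * κ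

lemma concave_pos {a b c lo hi x : ℝ} (ha : a ≤ 0) (h1 : 0 < a * lo ^ 2 + b * lo + c)
    (h2 : 0 < a * hi ^ 2 + b * hi + c) (hx1 : lo ≤ x) (hx2 : x ≤ hi) : 0 < a * x ^ 2 + b * x + c := by
  rcases eq_or_lt_of_le hx1 with h | h
  · rw [← h]; exact h1
  rcases eq_or_lt_of_le hx2 with h' | h'
  · rw [h']; exact h2
  have hd : 0 < hi - lo := by linarith
  have e1 : (hi - lo) * (a * x ^ 2 + b * x + c) = (hi - x) * (a * lo ^ 2 + b * lo + c) +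
      (x - lo) * (a * hi ^ 2 + b * hi + c) + (-a) * ((hi - lo) * ((hi - x) * (x - lo))) := by ring
  have h3 : 0 < (hi - x) * (a * lo ^ 2 + b * lo + c) := mul_pos (by linarith) h1
  have h4 : 0 < (x - lo) * (a * hi ^ 2 + b * hi + c) := mul_pos (by linarith) h2
  have h5 : 0 ≤ (-a) * ((hi - lo) * ((hi - x) * (x - lo))) :=
    mul_nonneg (by linarith) (mul_nonneg hd.le (mul_nonneg (by linarith) (by linarith)))
  have h6 : 0 < (hi - lo) * (a * x ^ 2 + b * x + c) := by rw [e1]; linarith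
  exact (pos_iff_pos_of_mul_pos h6).mp hd

/-- `Ev` is linear in `W` -/
lemma linear_pos {a b W W1 : ℝ} (h0 : 0 < b) (h1 : 0 < a * W1 + b) (hW : 0 ≤ W) (hW1 : W ≤ W1) : 0 < a * W + b := by
  rcases le_or_gt 0 a with ha | ha
  · have := mul_nonneg ha hW; linarith
  · have := mul_le_mul_of_nonpos_left hW1 ha.le; linarith

/-- positivity of `Ev` from the vertices -/
lemma Ev_pos {F A al be κ e c lo hi m S W : ℝ} (hA : 0 ≤ A) (hc : be ≤ 3 * al)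
    (h1 : 0 < Ev F A al be κ e c lo ((2 * m - lo) ^ 2)) (h2 : 0 < Ev F A al be κ e c hi ((2 * m - hi) ^ 2))
    (h3 : be * A ≤ 288 * F ∨ (288 * F + be * A ≤ 6 * al * A ∧ 0 < Ev F A al be κ e c lo 0 ∧
      0 < Ev F A al be κ e c hi 0))
    (hS1 : lo ≤ S) (hS2 : S ≤ hi) (hW : 0 ≤ W) (hW1 : W ≤ (2 * m - S) ^ 2) : 0 < Ev F A al be κ e c S W := by
  -- the line `W = (2m - S)^2`
  have hline : 0 < Ev F A al be κ e c S ((2 * m - S) ^ 2) := by
    have hform : ∀ x : ℝ, Ev F A al be κ e c x ((2 * m - x) ^ 2) =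
        (2 * be * A - 6 * al * A) * x ^ 2 + (1152 * F * m + 12 * al * A * e - 4 * be * A * m) * x +
          (-(1152 * F * m ^ 2) - 6 * al * A * e ^ 2 - 2 * be * A * (1 - c) + 4 * be * A * m ^ 2 - 144 * κ) := by
      intro x; unfold Ev; ring
    rw [hform] at h1 h2 ⊢
    refine concave_pos ?_ h1 h2 hS1 hS2
    have := mul_le_mul_of_nonneg_right hc hA
    linarith
  rcases h3 with h3 | ⟨h3, h4, h5⟩
  · have e1 : Ev F A al be κ e c S W = Ev F A al be κ e c S ((2 * m - S) ^ 2) +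
        (288 * F - be * A) * ((2 * m - S) ^ 2 - W) := by unfold Ev; ring
    rw [e1]
    have : 0 ≤ (288 * F - be * A) * ((2 * m - S) ^ 2 - W) := mul_nonneg (by linarith) (by linarith)
    linarith
  · have hzero : 0 < Ev F A al be κ e c S 0 := by
      have hform : ∀ x : ℝ, Ev F A al be κ e c x 0 =
          (288 * F - 6 * al * A + be * A) * x ^ 2 + (12 * al * A * e) * x +
            (-(6 * al * A * e ^ 2) - 2 * be * A * (1 - c) - 144 * κ) := by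
        intro x; unfold Ev; ring
      rw [hform] at h4 h5 ⊢
      exact concave_pos (by linarith) h4 h5 hS1 hS2
    have e1 : Ev F A al be κ e c S W = (be * A - 288 * F) * W + Ev F A al be κ e c S 0 := by unfold Ev; ring
    have e2 : Ev F A al be κ e c S ((2 * m - S) ^ 2) =
        (be * A - 288 * F) * (2 * m - S) ^ 2 + Ev F A al be κ e c S 0 := by unfold Ev; ring
    rw [e1]
    rw [e2] at hline
    exact linear_pos hzero hline hW hW1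

/-- without the square: monotone in `S` -/
lemma Ev_pos0 {F A be κ c lo m S W : ℝ} (hF : 0 ≤ F) (hA : 0 ≤ A) (hbe : 0 ≤ be) (hm : 0 ≤ m) (hlo : m ≤ lo)
    (h1 : 0 < Ev F A 0 be κ 0 c lo ((2 * m - lo) ^ 2)) (h3 : be * A ≤ 288 * F ∨ 0 < Ev F A 0 be κ 0 c lo 0)
    (hS1 : lo ≤ S) (hW : 0 ≤ W) (hW1 : W ≤ (2 * m - S) ^ 2) : 0 < Ev F A 0 be κ 0 c S W := by
  have hbA : 0 ≤ be * A := mul_nonneg hbe hA
  have hline : 0 < Ev F A 0 be κ 0 c S ((2 * m - S) ^ 2) := by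
    have e1 : Ev F A 0 be κ 0 c S ((2 * m - S) ^ 2) = Ev F A 0 be κ 0 c lo ((2 * m - lo) ^ 2) +
        (S - lo) * (1152 * F * m + be * A * (2 * ((S - m) + (lo - m)))) := by unfold Ev; ring
    rw [e1]
    have h5 : 0 ≤ be * A * (2 * ((S - m) + (lo - m))) := mul_nonneg hbA (by linarith)
    have h6 : 0 ≤ 1152 * F * m := by positivity
    have := mul_nonneg (sub_nonneg.mpr hS1) (by linarith : 0 ≤ 1152 * F * m + be * A * (2 * ((S - m) + (lo - m))))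
    linarith
  rcases h3 with h3 | h4
  · have e1 : Ev F A 0 be κ 0 c S W = Ev F A 0 be κ 0 c S ((2 * m - S) ^ 2) +
        (288 * F - be * A) * ((2 * m - S) ^ 2 - W) := by unfold Ev; ring
    rw [e1]
    have : 0 ≤ (288 * F - be * A) * ((2 * m - S) ^ 2 - W) := mul_nonneg (by linarith) (by linarith)
    linarith
  · have hzero : 0 < Ev F A 0 be κ 0 c S 0 := by
      have e1 : Ev F A 0 be κ 0 c S 0 = Ev F A 0 be κ 0 c lo 0 + (288 * F + be * A) * ((S - lo) * (S + lo)) := by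
        unfold Ev; ring
      rw [e1]
      have : 0 ≤ (288 * F + be * A) * ((S - lo) * (S + lo)) :=
        mul_nonneg (by linarith) (mul_nonneg (by linarith) (by linarith))
      linarith
    have e1 : Ev F A 0 be κ 0 c S W = (be * A - 288 * F) * W + Ev F A 0 be κ 0 c S 0 := by unfold Ev; ring
    have e2 : Ev F A 0 be κ 0 c S ((2 * m - S) ^ 2) =
        (be * A - 288 * F) * (2 * m - S) ^ 2 + Ev F A 0 be κ 0 c S 0 := by unfold Ev; ring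
    rw [e1]
    rw [e2] at hline
    exact linear_pos hzero hline hW hW1

/-- the K term: `v^3/β^4` is largest at the left end -/
lemma K_le {v β V B0 L S : ℝ} (hv : 0 ≤ v) (hL : 0 ≤ L) (hS : L ≤ S) (hV : 0 < V) (hB : 0 < B0)
    (hvV : v ≤ V - (S ^ 2 - L ^ 2) / 6) (hβ : B0 - (S - L) ≤ β) (hβ0 : 0 < B0 - (S - L))
    (hLB : 4 * V ≤ L * B0) : v ^ 3 / β ^ 4 ≤ V ^ 3 / B0 ^ 4 := by
  set x := S - L with hx
  have hx0 : 0 ≤ x := by rw [hx]; linarith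
  have h1 : v ≤ V - L * x / 3 := by
    have : (S ^ 2 - L ^ 2) / 6 = L * x / 3 + x ^ 2 / 6 := by rw [hx]; ring
    have := sq_nonneg x
    linarith
  have hβp : 0 < β := lt_of_lt_of_le hβ0 hβ
  rw [div_le_div_iff₀ (by positivity) (by positivity)]
  -- normalise
  set b := x / B0 with hb
  have hxb : x = b * B0 := by rw [hb]; field_simp
  have hb0 : 0 ≤ b := by rw [hb]; positivity
  have hb1 : b < 1 := by rw [hb, div_lt_one hB]; linarith
  have h2 : v ≤ V * (1 - 4 * b / 3) := by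
    have h3 : 4 * V * b ≤ L * B0 * b := mul_le_mul_of_nonneg_right hLB hb0
    have h4 : L * x = L * B0 * b := by rw [hxb]; ring
    rw [h4] at h1
    linarith
  have h5 : 0 ≤ 1 - 4 * b / 3 := by
    by_contra hcon
    rw [not_le] at hcon
    have := mul_neg_of_pos_of_neg hV hcon
    linarith
  have h6 : (1 - 4 * b / 3) ^ 3 ≤ (1 - b) ^ 4 := by
    have : (1 - b) ^ 4 - (1 - 4 * b / 3) ^ 3 = b ^ 2 * ((b - 22 / 27) ^ 2 + (2/3 - (22/27) ^ 2)) := by ring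
    have h7 : 0 ≤ b ^ 2 * ((b - 22 / 27) ^ 2 + (2/3 - (22/27) ^ 2)) := by
      refine mul_nonneg (sq_nonneg _) ?_
      have := sq_nonneg (b - 22 / 27)
      norm_num
      linarith
    linarith
  have h8 : v ^ 3 ≤ (V * (1 - 4 * b / 3)) ^ 3 := pow_le_pow_left₀ hv h2 3
  have h9 : (B0 * (1 - b)) ^ 4 ≤ β ^ 4 := by
    refine pow_le_pow_left₀ (mul_nonneg hB.le (by linarith)) ?_ 4
    have : B0 * (1 - b) = B0 - x := by rw [hxb]; ring
    rw [this]; exact hβ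
  calc v ^ 3 * B0 ^ 4 ≤ (V * (1 - 4 * b / 3)) ^ 3 * B0 ^ 4 := mul_le_mul_of_nonneg_right h8 (by positivity)
    _ = V ^ 3 * B0 ^ 4 * (1 - 4 * b / 3) ^ 3 := by ring
    _ ≤ V ^ 3 * B0 ^ 4 * (1 - b) ^ 4 := mul_le_mul_of_nonneg_left h6 (by positivity)
    _ = V ^ 3 * (B0 * (1 - b)) ^ 4 := by ring
    _ ≤ V ^ 3 * β ^ 4 := mul_le_mul_of_nonneg_left h9 (by positivity)

/-- the vertices for one value of `e` -/
def Vert (F0 A1 al be κ e c lo hi m : ℝ) : Prop :=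
  0 < Ev F0 A1 al be κ e c lo ((2 * m - lo) ^ 2) ∧ 0 < Ev F0 A1 al be κ e c hi ((2 * m - hi) ^ 2) ∧
    (be * A1 ≤ 288 * F0 ∨ (288 * F0 + be * A1 ≤ 6 * al * A1 ∧ 0 < Ev F0 A1 al be κ e c lo 0 ∧
      0 < Ev F0 A1 al be κ e c hi 0))

lemma sq_le_e {S t p T0 T1 P0 P1 : ℝ} (h0 : T0 - P1 ≤ t - p) (h1 : t - p ≤ T1 - P0) :
    (p + S - t) ^ 2 ≤ (S - (T0 - P1)) ^ 2 ∨ (p + S - t) ^ 2 ≤ (S - (T1 - P0)) ^ 2 := by
  rcases le_total (t - p) S with hS | hS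
  · left
    refine pow_le_pow_left₀ (by linarith) (by linarith) 2
  · right
    rw [show (p + S - t) ^ 2 = (t - p - S) ^ 2 by ring, show (S - (T1 - P0)) ^ 2 = (T1 - P0 - S) ^ 2 by ring]
    refine pow_le_pow_left₀ (by linarith) (by linarith) 2

/-- real data of a box -/
structure BoxR (t p q r F T0 T1 P0 P1 L m F0 A1 V B0 G0 : ℝ) : Prop where
  ht0 : T0 ≤ t
  ht1 : t ≤ T1
  hp0 : P0 ≤ p
  hp1 : p ≤ P1
  hP0 : 0 ≤ P0
  hT0 : 0 ≤ T0
  hr : 0 < r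
  hrq : r ≤ q
  hqm : q ≤ m
  hsq : p ^ 2 + q ^ 2 + r ^ 2 ≤ 1
  hL : L ≤ q + r
  hL0 : 0 ≤ L
  hF : F0 ≤ F
  hF0 : 0 ≤ F0
  hA : 1 - T0 * P0 ≤ A1
  hA0 : 0 ≤ A1
  hV : (1 - P0 ^ 2 - L ^ 2 / 2) / 3 ≤ V
  hV0 : 0 < V
  hB : B0 ≤ T0 + P0 - L
  hB0 : 0 < B0
  hBm : 0 < B0 - (2 * m - L)
  hLB : 4 * V ≤ L * B0
  hG : G0 ≤ T0 - P1 + L
  hG0 : 0 < G0

section
variable {t p q r F T0 T1 P0 P1 L m F0 A1 V B0 G0 : ℝ} (h : BoxR t p q r F T0 T1 P0 P1 L m F0 A1 V B0 G0)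
include h

lemma BoxR.v0 : 0 ≤ vv p q r := by
  have := h.hsq
  unfold vv
  linarith

lemma BoxR.vle : vv p q r ≤ V - ((q + r) ^ 2 - L ^ 2) / 6 := by
  have h1 := h.hV
  have h2 : P0 ^ 2 ≤ p ^ 2 := pow_le_pow_left₀ h.hP0 h.hp0 2
  have h3 := sq_nonneg (q - r)
  unfold vv
  linarith

lemma BoxR.vle' : vv p q r ≤ V := by
  have h1 := h.vle
  have h2 : L ^ 2 ≤ (q + r) ^ 2 := pow_le_pow_left₀ h.hL0 h.hL 2
  linarith

lemma BoxR.K1 : Kb (vv p q r) (t + p - q - r) ≤ 0.1647 * (V ^ 3 / B0 ^ 4) := by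
  have h1 := K_le (v := vv p q r) (β := t + p - q - r) (V := V) (B0 := B0) (L := L) (S := q + r) h.v0 h.hL0 h.hL
    h.hV0 h.hB0 h.vle (by linarith [h.hB, h.ht0, h.hp0]) (by linarith [h.hBm, h.hqm, h.hrq]) h.hLB
  unfold Kb
  rw [mul_div_assoc]
  exact mul_le_mul_of_nonneg_left h1 (by norm_num)

lemma BoxR.K2 : Kb (vv p q r) (t - p + q + r) ≤ 0.1647 * (V ^ 3 / G0 ^ 4) := by
  unfold Kb
  rw [mul_div_assoc]
  refine mul_le_mul_of_nonneg_left ?_ (by norm_num)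
  have hg : G0 ≤ t - p + q + r := by linarith [h.hG, h.ht0, h.hp1, h.hL]
  exact div_le_div₀ (by have := h.hV0; positivity) (pow_le_pow_left₀ h.v0 h.vle' 3) (by have := h.hG0; positivity)
    (pow_le_pow_left₀ h.hG0.le hg 4)

lemma BoxR.K2nonneg : 0 ≤ Kb (vv p q r) (t - p + q + r) := by
  have := h.v0
  unfold Kb
  positivity

lemma BoxR.K1nonneg : 0 ≤ Kb (vv p q r) (t + p - q - r) := by
  have := h.v0
  unfold Kb
  positivity

lemma BoxR.Ale : 1 - t * p ≤ A1 := by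
  have h1 : T0 * P0 ≤ t * p := mul_le_mul h.ht0 h.hp0 h.hP0 (h.hT0.trans h.ht0)
  linarith [h.hA]

lemma BoxR.qr : 0 < q * r := mul_pos (lt_of_lt_of_le h.hr h.hrq) h.hr

/-- the K terms together -/
lemma BoxR.Ksum {C C1 κ : ℝ} (hC : C ≤ C1) (hC1 : 0 ≤ C1)
    (hκ : C1 * (0.1647 * (V ^ 3 / B0 ^ 4)) + A1 * (0.1647 * (V ^ 3 / G0 ^ 4)) ≤ κ) :
    C * Kb (vv p q r) (t + p - q - r) + (1 - t * p) * Kb (vv p q r) (t - p + q + r) ≤ κ := by
  have h1 : C * Kb (vv p q r) (t + p - q - r) ≤ C1 * (0.1647 * (V ^ 3 / B0 ^ 4)) :=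
    (mul_le_mul_of_nonneg_right hC h.K1nonneg).trans (mul_le_mul_of_nonneg_left h.K1 hC1)
  have h2 : (1 - t * p) * Kb (vv p q r) (t - p + q + r) ≤ A1 * (0.1647 * (V ^ 3 / G0 ^ 4)) :=
    (mul_le_mul_of_nonneg_right h.Ale h.K2nonneg).trans (mul_le_mul_of_nonneg_left h.K2 h.hA0)
  linarith

/-- the polynomial part -/
lemma BoxR.poly {al be κ e : ℝ} (hal : 0 ≤ al) (hbe : 0 ≤ be) (he : (p + q + r - t) ^ 2 ≤ (q + r - e) ^ 2)
    (hE : 0 < Ev F0 A1 al be κ e (P0 ^ 2) (q + r) ((q - r) ^ 2)) :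
    (1 - t * p) * ((p + q + r - t) ^ 2 * (al / 24) + vv p q r * (be / 24)) + κ < 8 * (q * r) * F := by
  have h1 : (p + q + r - t) ^ 2 * (al / 24) + vv p q r * (be / 24) ≤
      (q + r - e) ^ 2 * (al / 24) + (1 - P0 ^ 2 - q ^ 2 - r ^ 2) / 3 * (be / 24) := by
    have h2 : P0 ^ 2 ≤ p ^ 2 := pow_le_pow_left₀ h.hP0 h.hp0 2
    have h3 : vv p q r ≤ (1 - P0 ^ 2 - q ^ 2 - r ^ 2) / 3 := by unfold vv; linarith
    have h4 := mul_le_mul_of_nonneg_right he (by positivity : 0 ≤ al / 24)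
    have h5 := mul_le_mul_of_nonneg_right h3 (by positivity : 0 ≤ be / 24)
    linarith
  have h0 : 0 ≤ (p + q + r - t) ^ 2 * (al / 24) + vv p q r * (be / 24) := by
    have := h.v0
    positivity
  have h2 : (1 - t * p) * ((p + q + r - t) ^ 2 * (al / 24) + vv p q r * (be / 24)) ≤
      A1 * ((q + r - e) ^ 2 * (al / 24) + (1 - P0 ^ 2 - q ^ 2 - r ^ 2) / 3 * (be / 24)) :=
    (mul_le_mul_of_nonneg_right h.Ale h0).trans (mul_le_mul_of_nonneg_left h1 h.hA0)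
  have h3 : 8 * (q * r) * F0 ≤ 8 * (q * r) * F := mul_le_mul_of_nonneg_left h.hF (by have := h.qr; positivity)
  have h4 : Ev F0 A1 al be κ e (P0 ^ 2) (q + r) ((q - r) ^ 2) =
      144 * (8 * (q * r) * F0 - A1 * ((q + r - e) ^ 2 * (al / 24) +
        (1 - P0 ^ 2 - q ^ 2 - r ^ 2) / 3 * (be / 24)) - κ) := by unfold Ev; ring
  rw [h4] at hE
  linarith

lemma BoxR.W1 (hS : q + r ≤ 2 * m) : (q - r) ^ 2 ≤ (2 * m - (q + r)) ^ 2 := by
  refine pow_le_pow_left₀ (by linarith [h.hrq]) ?_ 2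
  linarith [h.hqm]

/-- first alternative -/
lemma BoxR.gi {C1 κ : ℝ} (hC : 4 * (T1 * P1) - 2 ≤ C1) (hC1 : 0 ≤ C1)
    (hκ : C1 * (0.1647 * (V ^ 3 / B0 ^ 4)) + A1 * (0.1647 * (V ^ 3 / G0 ^ 4)) ≤ κ)
    (h1 : Vert F0 A1 24 24 κ (T0 - P1) (P0 ^ 2) L (2 * m) m) (h2 : Vert F0 A1 24 24 κ (T1 - P0) (P0 ^ 2) L (2 * m) m) :
    Gi t p q r < 8 * (q * r) * F := by
  have hT1 : t * p ≤ T1 * P1 := mul_le_mul h.ht1 h.hp1 (h.hP0.trans h.hp0) ((h.hT0.trans h.ht0).trans h.ht1)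
  have hcc : max (4 * (t * p) - 2) 0 ≤ C1 := max_le (by linarith) hC1
  have hK := h.Ksum hcc hC1 hκ
  have hS : q + r ≤ 2 * m := by linarith [h.hqm, h.hrq]
  have key : ∀ e : ℝ, (p + q + r - t) ^ 2 ≤ (q + r - e) ^ 2 → Vert F0 A1 24 24 κ e (P0 ^ 2) L (2 * m) m →
      Gi t p q r < 8 * (q * r) * F := by
    intro e he hv
    have hE := Ev_pos (m := m) h.hA0 (by norm_num) hv.1 hv.2.1 hv.2.2 h.hL hS (sq_nonneg (q - r)) (h.W1 hS)
    have := h.poly (al := 24) (be := 24) (by norm_num) (by norm_num) he hE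
    unfold Gi
    have e1 : (p + q + r - t) ^ 2 * (24 / 24) + vv p q r * (24 / 24) = (p + q + r - t) ^ 2 + vv p q r := by ring
    rw [e1] at this
    linarith
  rcases sq_le_e (S := q + r) (t := t) (p := p) (T0 := T0) (T1 := T1) (P0 := P0) (P1 := P1)
    (by linarith [h.ht0, h.hp1]) (by linarith [h.ht1, h.hp0]) with he | he
  · exact key _ (by rw [show p + q + r - t = p + (q + r) - t by ring]; exact he) h1
  · exact key _ (by rw [show p + q + r - t = p + (q + r) - t by ring]; exact he) h2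

/-- second alternative -/
lemma BoxR.gii {C1 κ lo al be k : ℝ} (hk : 0 < k) (hal : al / 24 = 1 + k / 2) (hbe : be / 24 = 1 / 2 + 1 / (2 * k))
    (hcc : be ≤ 3 * al) (hC : 3 * (T1 * P1) - 1 ≤ C1) (hC1 : 0 ≤ C1)
    (hκ : C1 * (0.1647 * (V ^ 3 / B0 ^ 4)) + A1 * (0.1647 * (V ^ 3 / G0 ^ 4)) ≤ κ)
    (hlo : lo ≤ q + r) (hst : t ≤ p + q + r)
    (h1 : Vert F0 A1 al be κ (T0 - P1) (P0 ^ 2) lo (2 * m) m) :
    Gii k t p q r < 8 * (q * r) * F := by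
  have hT1 : t * p ≤ T1 * P1 := mul_le_mul h.ht1 h.hp1 (h.hP0.trans h.hp0) ((h.hT0.trans h.ht0).trans h.ht1)
  have hK := h.Ksum (C := 3 * (t * p) - 1) (by linarith) hC1 hκ
  have hS : q + r ≤ 2 * m := by linarith [h.hqm, h.hrq]
  have hal0 : 0 ≤ al := by
    have : al = 24 * (1 + k / 2) := by rw [← hal]; ring
    rw [this]; positivity
  have hbe0 : 0 ≤ be := by
    have : be = 24 * (1 / 2 + 1 / (2 * k)) := by rw [← hbe]; ring
    rw [this]; positivity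
  have he : (p + q + r - t) ^ 2 ≤ (q + r - (T0 - P1)) ^ 2 :=
    pow_le_pow_left₀ (by linarith) (by linarith [h.ht0, h.hp1]) 2
  have hE := Ev_pos (m := m) h.hA0 hcc h1.1 h1.2.1 h1.2.2 hlo hS (sq_nonneg (q - r)) (h.W1 hS)
  have := h.poly hal0 hbe0 he hE
  unfold Gii
  rw [hal, hbe] at this
  linarith

/-- third alternative -/
lemma BoxR.giii {C1 κ : ℝ} (hC : 3 * (T1 * P1) - 1 ≤ C1) (hC1 : 0 ≤ C1)
    (hκ : C1 * (0.1647 * (V ^ 3 / B0 ^ 4)) + A1 * (0.1647 * (V ^ 3 / G0 ^ 4)) ≤ κ) (hmL : m ≤ L)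
    (h1 : 0 < Ev F0 A1 0 12 κ 0 (P0 ^ 2) L ((2 * m - L) ^ 2))
    (h3 : 12 * A1 ≤ 288 * F0 ∨ 0 < Ev F0 A1 0 12 κ 0 (P0 ^ 2) L 0) :
    Giii t p q r < 8 * (q * r) * F := by
  have hT1 : t * p ≤ T1 * P1 := mul_le_mul h.ht1 h.hp1 (h.hP0.trans h.hp0) ((h.hT0.trans h.ht0).trans h.ht1)
  have hK := h.Ksum (C := 3 * (t * p) - 1) (by linarith) hC1 hκ
  have hS : q + r ≤ 2 * m := by linarith [h.hqm, h.hrq]
  have hm0 : 0 ≤ m := by linarith [h.hr, h.hrq, h.hqm]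
  have hE := Ev_pos0 h.hF0 h.hA0 (by norm_num : (0:ℝ) ≤ 12) hm0 hmL h1 h3 h.hL (sq_nonneg (q - r)) (h.W1 hS)
  have h1' : vv p q r * (12 / 24) ≤ (1 - P0 ^ 2 - q ^ 2 - r ^ 2) / 3 * (12 / 24) := by
    have h2 : P0 ^ 2 ≤ p ^ 2 := pow_le_pow_left₀ h.hP0 h.hp0 2
    have h3 : vv p q r ≤ (1 - P0 ^ 2 - q ^ 2 - r ^ 2) / 3 := by unfold vv; linarith
    linarith
  have h0 : 0 ≤ vv p q r * (12 / 24) := by
    have := h.v0
    positivity
  have h2 : (1 - t * p) * (vv p q r * (12 / 24)) ≤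
      A1 * ((1 - P0 ^ 2 - q ^ 2 - r ^ 2) / 3 * (12 / 24)) :=
    (mul_le_mul_of_nonneg_right h.Ale h0).trans (mul_le_mul_of_nonneg_left h1' h.hA0)
  have h4 : 8 * (q * r) * F0 ≤ 8 * (q * r) * F := mul_le_mul_of_nonneg_left h.hF (by have := h.qr; positivity)
  have h5 : Ev F0 A1 0 12 κ 0 (P0 ^ 2) (q + r) ((q - r) ^ 2) =
      144 * (8 * (q * r) * F0 - A1 * ((1 - P0 ^ 2 - q ^ 2 - r ^ 2) / 3 * (12 / 24)) - κ) := by unfold Ev; ring
  rw [h5] at hE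
  unfold Giii
  have e1 : (1 - t * p) * (vv p q r / 2) = (1 - t * p) * (vv p q r * (12 / 24)) := by ring
  rw [e1]
  linarith

end

end Pool.Agent.Helper35.SP
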