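import Pool.Agent.Helper35.SP.Box

/-! Project SP: the T3 facts, soundness of the integer box checker. -/

set_option autoImplicit false

open Pool.Agent.Helper89.SP

namespace Pool.Agent.Helper35.SP

/-- the hypotheses on `t, p, q, r` -/
structure Hyp (a0 a1 : ℕ) (tp : Bool) (t p q r : ℝ) : Prop where
  hr : 0 < r
  hrq : r ≤ q
  hqp : q ≤ p
  hpq : p + q ≤ t
  hsq : p ^ 2 + q ^ 2 + r ^ 2 ≤ 1
  hS : ((a0 : ℝ) / NN - a1 * p) / 10 ≤ q + r
  htp : tp = true → t * p < 1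

lemma sub_ge (x y : ℕ) : (x : ℝ) - y ≤ ((x - y : ℕ) : ℝ) := by
  have : x ≤ (x - y) + y := by omega
  have h : (x : ℝ) ≤ ((x - y : ℕ) : ℝ) + y := by exact_mod_cast this
  linarith

lemma kap_ok (C a V B G : ℕ) (hB : 0 < B) (hG : 0 < G) :
    ((C : ℝ) / NN) * (0.1647 * (((V : ℝ) / NN) ^ 3 / ((B : ℝ) / NN) ^ 4)) +
      ((a : ℝ) / NN) * (0.1647 * (((V : ℝ) / NN) ^ 3 / ((G : ℝ) / NN) ^ 4)) ≤
      ((C * 1647000 * V ^ 3 / B ^ 4 + a * 1647000 * V ^ 3 / G ^ 4 + 2 : ℕ) : ℝ) / NN := by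
  have hn := NN_pos
  have hBr : (0:ℝ) < B := by exact_mod_cast hB
  have hGr : (0:ℝ) < G := by exact_mod_cast hG
  have key : ∀ (x y : ℝ), 0 < y → (x / NN) * (0.1647 * (((V : ℝ) / NN) ^ 3 / (y / NN) ^ 4)) =
      (x * 1647000 * (V : ℝ) ^ 3 / y ^ 4) / NN := by
    intro x y hy
    have h1 : (0.1647 : ℝ) = 1647000 / NN := by rw [NN_cast]; norm_num
    rw [h1]
    field_simp
  rw [key _ _ hBr, key _ _ hGr, ← add_div]
  refine div_le_div_of_nonneg_right ?_ hn.le
  have h1 := up_ge (C * 1647000 * V ^ 3) (y := B ^ 4) (by positivity)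
  have h2 := up_ge (a * 1647000 * V ^ 3) (y := G ^ 4) (by positivity)
  push_cast at h1 h2 ⊢
  linarith

lemma kset {x : ℕ × ℕ}
    (hx : x ∈ [((27 : ℕ), (60 : ℕ)), (30, 36), (36, 24), (42, 20), (48, 18), (60, 16), (72, 15)]) :
    ∃ k : ℝ, 0 < k ∧ (x.1 : ℝ) / 24 = 1 + k / 2 ∧ (x.2 : ℝ) / 24 = 1 / 2 + 1 / (2 * k) ∧
      (x.2 : ℝ) ≤ 3 * (x.1 : ℝ) := by
  simp only [List.mem_cons, List.not_mem_nil, or_false] at hx
  rcases hx with h | h | h | h | h | h | h <;> subst h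
  · exact ⟨1 / 4, by norm_num, by norm_num, by norm_num, by norm_num⟩
  · exact ⟨1 / 2, by norm_num, by norm_num, by norm_num, by norm_num⟩
  · exact ⟨1, by norm_num, by norm_num, by norm_num, by norm_num⟩
  · exact ⟨3 / 2, by norm_num, by norm_num, by norm_num, by norm_num⟩
  · exact ⟨2, by norm_num, by norm_num, by norm_num, by norm_num⟩
  · exact ⟨3, by norm_num, by norm_num, by norm_num, by norm_num⟩
  · exact ⟨4, by norm_num, by norm_num, by norm_num, by norm_num⟩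

lemma core_sound {f a V B G C1 C2 l m t0 t1 p0 p1 : ℕ} {t p q r F : ℝ}
    (h : core f a V B G C1 C2 l m t0 t1 p0 p1 = true)
    (hb : BoxR t p q r F ((t0 : ℝ) / NN) ((t1 : ℝ) / NN) ((p0 : ℝ) / NN) ((p1 : ℝ) / NN) ((l : ℝ) / NN)
      ((m : ℝ) / NN) ((f : ℝ) / NN) ((a : ℝ) / NN) ((V : ℝ) / NN) ((B : ℝ) / NN) ((G : ℝ) / NN))
    (hl : l ≤ 2 * m)
    (hC1 : 4 * ((t1 : ℝ) / NN * ((p1 : ℝ) / NN)) - 2 ≤ (C1 : ℝ) / NN)
    (hC2 : 3 * ((t1 : ℝ) / NN * ((p1 : ℝ) / NN)) - 1 ≤ (C2 : ℝ) / NN) : Beats t p q r F := by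
  have hn := NN_pos
  unfold core at h
  simp only [Bool.and_eq_true, Bool.or_eq_true, Nat.ble_eq, Nat.blt_eq] at h
  obtain ⟨⟨⟨⟨⟨hVB, hmB⟩, hG0⟩, hpt⟩, hpt'⟩, h⟩ := h
  have hB0 : 0 < B := by omega
  have hk1 := kap_ok C1 a V B G hB0 hG0
  have hk2 := kap_ok C2 a V B G hB0 hG0
  have hc : ((p0 : ℝ) / NN) ^ 2 = ((p0 * p0 : ℕ) : ℝ) / NN ^ 2 := by push_cast; field_simp
  have hm2 : 2 * ((m : ℝ) / NN) = ((2 * m : ℕ) : ℝ) / NN := by push_cast; ring
  have he1 : (t0 : ℝ) / NN - (p1 : ℝ) / NN = ((t0 - p1 : ℕ) : ℝ) / NN := by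
    rw [Nat.cast_sub hpt]; ring
  have he2 : (t1 : ℝ) / NN - (p0 : ℝ) / NN = ((t1 - p0 : ℕ) : ℝ) / NN := by
    rw [Nat.cast_sub hpt']; ring
  have hC1' : (0 : ℝ) ≤ (C1 : ℝ) / NN := by positivity
  have hC2' : (0 : ℝ) ≤ (C2 : ℝ) / NN := by positivity
  have hqr2 : q + r ≤ 2 * ((m : ℝ) / NN) := by linarith [hb.hqm, hb.hrq]
  rcases h with ⟨h1, h2⟩ | ⟨h3, h2⟩
  · left
    have v1 := vert_sound hl le_rfl h1
    have v2 := vert_sound hl le_rfl h2
    refine hb.gi hC1 hC1' hk1 ?_ ?_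
    · rw [he1, hc, hm2]; simpa using v1
    · rw [he2, hc, hm2]; simpa using v2
  · right
    rcases le_total t (p + q + r) with hst | hst
    · left
      refine ⟨by linarith, ?_⟩
      have hlow1 : (l : ℝ) / NN ≤ q + r := hb.hL
      have hlow2 : ((t0 - p1 : ℕ) : ℝ) / NN ≤ q + r := by
        rw [← he1]; linarith [hb.ht0, hb.hp1]
      have hlow : ((max l (t0 - p1) : ℕ) : ℝ) / NN ≤ q + r := by
        rcases max_choice l (t0 - p1) with hx | hx <;> rw [hx] <;> assumption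
      rcases h2 with h2 | h2
      · exfalso
        have h4 : ((2 * m : ℕ) : ℝ) / NN < ((max l (t0 - p1) : ℕ) : ℝ) / NN :=
          div_lt_div_of_pos_right (by exact_mod_cast h2) hn
        rw [← hm2] at h4
        linarith
      · rw [List.any_eq_true] at h2
        obtain ⟨x, hx, hv⟩ := h2
        obtain ⟨k, hk, hk1', hk2', hk3⟩ := kset hx
        refine ⟨k, hk, ?_⟩
        have hmax : max l (t0 - p1) ≤ 2 * m := by
          have h4 : ((max l (t0 - p1) : ℕ) : ℝ) / NN ≤ ((2 * m : ℕ) : ℝ) / NN := by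
            rw [← hm2]; linarith
          have h5 := (div_le_div_iff_of_pos_right hn).mp h4
          exact_mod_cast h5
        have v := vert_sound hmax le_rfl hv
        refine hb.gii hk hk1' hk2' hk3 hC2 hC2' hk2 hlow hst ?_
        rw [he1, hc, hm2]
        exact v
    · right
      refine ⟨by linarith, ?_⟩
      rcases h3 with h3 | ⟨⟨hml, h4⟩, h5⟩
      · exfalso
        have h4 : ((t1 - p0 : ℕ) : ℝ) / NN < (l : ℝ) / NN :=
          div_lt_div_of_pos_right (by exact_mod_cast h3) hn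
        rw [← he2] at h4
        linarith [hb.hL, hb.ht1, hb.hp0]
      · have hw : (2 * ((m : ℝ) / NN) - (l : ℝ) / NN) ^ 2 = (((2 * m - l) * (2 * m - l) : ℕ) : ℝ) / NN ^ 2 := by
          rw [Nat.cast_mul, Nat.cast_sub hl]
          push_cast
          field_simp
        refine hb.giii hC2 hC2' hk2 ?_ ?_ ?_
        · exact div_le_div_of_nonneg_right (by exact_mod_cast hml) hn.le
        · have := evOK_pos h4
          rw [hc, hw]
          simpa using this
        · rcases h5 with h5 | h5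
          · left
            have h6 : (12 : ℝ) * a ≤ 288 * f := by exact_mod_cast h5
            have e1 : (12 : ℝ) * ((a : ℝ) / NN) = (12 * a) / NN := by ring
            have e2 : 288 * ((f : ℝ) / NN) = (288 * f) / NN := by ring
            rw [e1, e2]
            exact div_le_div_of_nonneg_right h6 hn.le
          · right
            have := evOK_pos h5
            rw [hc]
            simpa using this

lemma leaf_sound {a0 a1 : ℕ} {fF : ℕ → ℕ} {tp : Bool} {F : ℝ → ℝ} {R : ℝ → Prop} {t0 t1 p0 p1 : ℕ}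
    (hF : ∀ (t1 : ℕ) (t : ℝ), R t → t ≤ (t1 : ℝ) / NN → ((fF t1 : ℕ) : ℝ) / NN ≤ F t)
    (h : leaf a0 a1 fF tp t0 t1 p0 p1 = true) {t p q r : ℝ} (hR : R t) (hy : Hyp a0 a1 tp t p q r)
    (ht0 : (t0 : ℝ) / NN ≤ t) (ht1 : t ≤ (t1 : ℝ) / NN) (hp0 : (p0 : ℝ) / NN ≤ p) (hp1 : p ≤ (p1 : ℝ) / NN) :
    Beats t p q r (F t) := by
  have hn := NN_pos
  have hp0' : (0 : ℝ) ≤ (p0 : ℝ) / NN := by positivity
  have ht0' : (0 : ℝ) ≤ (t0 : ℝ) / NN := by positivity
  have hq0 : 0 < q := lt_of_lt_of_le hy.hr hy.hrq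
  unfold leaf at h
  simp only [Bool.and_eq_true, Bool.or_eq_true, Nat.ble_eq, Nat.blt_eq] at h
  set l := (a0 - a1 * p1) / 10 with hl
  set m := min p1 (t1 - p0) with hm
  have hLr : (l : ℝ) / NN ≤ q + r := by
    rcases le_total (a1 * p1) a0 with hle | hle
    · have h1 : (l : ℝ) ≤ ((a0 - a1 * p1 : ℕ) : ℝ) / 10 := by
        have : ((( a0 - a1 * p1) / 10 : ℕ) : ℝ) ≤ ((a0 - a1 * p1 : ℕ) : ℝ) / ((10 : ℕ) : ℝ) := Nat.cast_div_le
        simpa [hl] using this
      rw [Nat.cast_sub hle] at h1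
      push_cast at h1
      have h2 : (a1 : ℝ) * p ≤ a1 * ((p1 : ℝ) / NN) := mul_le_mul_of_nonneg_left hp1 (by positivity)
      have h3 : (l : ℝ) / NN ≤ (((a0 : ℝ) - a1 * p1) / 10) / NN := div_le_div_of_nonneg_right h1 hn.le
      have h4 : (((a0 : ℝ) - a1 * p1) / 10) / NN = ((a0 : ℝ) / NN - a1 * ((p1 : ℝ) / NN)) / 10 := by ring
      rw [h4] at h3
      linarith [hy.hS]
    · have h1 : l = 0 := by
        rw [hl, Nat.sub_eq_zero_of_le hle]
      rw [h1]
      simp only [Nat.cast_zero, zero_div]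
      linarith [hy.hr]
  have hqm : q ≤ (m : ℝ) / NN := by
    have h1 : q ≤ (p1 : ℝ) / NN := hy.hqp.trans hp1
    have h2 : q ≤ ((t1 - p0 : ℕ) : ℝ) / NN := by
      have h3 := sub_ge t1 p0
      have h4 : ((t1 : ℝ) - p0) / NN ≤ ((t1 - p0 : ℕ) : ℝ) / NN := div_le_div_of_nonneg_right h3 hn.le
      have h5 : ((t1 : ℝ) - p0) / NN = (t1 : ℝ) / NN - (p0 : ℝ) / NN := by ring
      rw [h5] at h4
      linarith [hy.hpq]
    rcases min_choice p1 (t1 - p0) with hx | hx <;> rw [hm, hx] <;> assumption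
  rcases h with ((h | h) | h) | h
  · exfalso
    have h1 : ((2 * m : ℕ) : ℝ) / NN < (l : ℝ) / NN := div_lt_div_of_pos_right (by exact_mod_cast h) hn
    have h2 : ((2 * m : ℕ) : ℝ) / NN = 2 * ((m : ℝ) / NN) := by push_cast; ring
    rw [h2] at h1
    linarith [hy.hrq]
  · exfalso
    have h1 : 2 * (NN : ℝ) * NN < 2 * p0 * p0 + l * l := by exact_mod_cast h
    have h2 : ((p0 : ℝ) / NN) ^ 2 ≤ p ^ 2 := pow_le_pow_left₀ hp0' hp0 2
    have h3 : ((l : ℝ) / NN) ^ 2 ≤ (q + r) ^ 2 := pow_le_pow_left₀ (by positivity) hLr 2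
    have h4 := sq_nonneg (q - r)
    have h5 := hy.hsq
    have h6 : 2 * ((p0 : ℝ) / NN) ^ 2 + ((l : ℝ) / NN) ^ 2 ≤ 2 := by linarith
    have h7 : 2 * ((p0 : ℝ) / NN) ^ 2 + ((l : ℝ) / NN) ^ 2 = (2 * p0 * p0 + l * l) / (NN * NN) := by
      field_simp
    rw [h7, div_le_iff₀ (by positivity)] at h6
    linarith
  · exfalso
    obtain ⟨htp, h⟩ := h
    have h1 : (NN : ℝ) * NN ≤ t0 * p0 := by exact_mod_cast h
    have h2 : (t0 : ℝ) / NN * ((p0 : ℝ) / NN) ≤ t * p := mul_le_mul ht0 hp0 hp0' (ht0'.trans ht0)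
    have h3 : (t0 : ℝ) / NN * ((p0 : ℝ) / NN) = (t0 * p0) / (NN * NN) := by field_simp
    have h4 : 1 ≤ ((t0 : ℝ) * p0) / (NN * NN) := by
      rw [le_div_iff₀ (by positivity)]; linarith
    have h5 := hy.htp htp
    linarith
  · have hh := h
    unfold core at hh
    simp only [Bool.and_eq_true, Nat.ble_eq, Nat.blt_eq] at hh
    obtain ⟨⟨⟨⟨⟨hVB, hmB⟩, hG0⟩, hpt⟩, hpt'⟩, -⟩ := hh
    have hl2m : l ≤ 2 * m := by
      have h4 : (l : ℝ) / NN ≤ ((2 * m : ℕ) : ℝ) / NN := by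
        have h2 : ((2 * m : ℕ) : ℝ) / NN = 2 * ((m : ℝ) / NN) := by push_cast; ring
        rw [h2]; linarith [hy.hrq]
      exact_mod_cast (div_le_div_iff_of_pos_right hn).mp h4
    refine core_sound h ?_ hl2m ?_ ?_
    · have hB0 : 0 < t0 + p0 - l := by omega
      have hBle : l ≤ t0 + p0 := by omega
      have hGle : p1 ≤ t0 + l := by omega
      exact
      { ht0 := ht0
        ht1 := ht1
        hp0 := hp0
        hp1 := hp1
        hP0 := hp0'
        hT0 := ht0'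
        hr := hy.hr
        hrq := hy.hrq
        hqm := hqm
        hsq := hy.hsq
        hL := hLr
        hL0 := by positivity
        hF := hF t1 t hR ht1
        hF0 := by positivity
        hA := by
          have h1 := sub_ge NN (t0 * p0 / NN)
          have h2 : ((t0 * p0 / NN : ℕ) : ℝ) ≤ ((t0 * p0 : ℕ) : ℝ) / NN := Nat.cast_div_le
          push_cast at h2
          have h3 : (NN : ℝ) - (t0 * p0) / NN ≤ ((NN - t0 * p0 / NN : ℕ) : ℝ) := by linarith
          have h4 := div_le_div_of_nonneg_right h3 hn.le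
          have h5 : ((NN : ℝ) - (t0 * p0) / NN) / NN = 1 - (t0 : ℝ) / NN * ((p0 : ℝ) / NN) := by field_simp
          rw [h5] at h4
          exact h4
        hA0 := by positivity
        hV := by
          have h1 := up_ge (2 * NN * NN - 2 * p0 * p0 - l * l) (y := 6 * NN) (by unfold NN; norm_num)
          have h2 : (2 * (NN:ℝ) * NN - 2 * p0 * p0 - l * l) ≤ ((2 * NN * NN - 2 * p0 * p0 - l * l : ℕ) : ℝ) := by
            have e1 := sub_ge (2 * NN * NN - 2 * p0 * p0) (l * l)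
            have e2 := sub_ge (2 * NN * NN) (2 * p0 * p0)
            push_cast at e1 e2 ⊢
            linarith
          have h3 : (2 * (NN:ℝ) * NN - 2 * p0 * p0 - l * l) / (6 * NN) ≤
              (((2 * NN * NN - 2 * p0 * p0 - l * l) / (6 * NN) + 1 : ℕ) : ℝ) := by
            have h4 := div_le_div_of_nonneg_right h2 (by positivity : (0:ℝ) ≤ 6 * NN)
            push_cast at h1 ⊢
            linarith
          have h4 := div_le_div_of_nonneg_right h3 hn.le
          have h5 : ((2 * (NN:ℝ) * NN - 2 * p0 * p0 - l * l) / (6 * NN)) / NN =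
              (1 - ((p0 : ℝ) / NN) ^ 2 - ((l : ℝ) / NN) ^ 2 / 2) / 3 := by
            field_simp
            ring
          rw [h5] at h4
          exact h4
        hV0 := by positivity
        hB := by
          rw [Nat.cast_sub hBle]
          push_cast
          exact le_of_eq (by ring)
        hB0 := div_pos (by exact_mod_cast hB0) hn
        hBm := by
          have h1 := sub_ge (2 * m) l
          have h2 : ((2 * m - l : ℕ) : ℝ) < ((t0 + p0 - l : ℕ) : ℝ) := by exact_mod_cast hmB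
          have h3 : (0:ℝ) < ((t0 + p0 - l : ℕ) : ℝ) - (2 * m - l) := by
            push_cast at h1
            linarith
          have h4 := div_pos h3 hn
          have h5 : (((t0 + p0 - l : ℕ) : ℝ) - (2 * m - l)) / NN =
              ((t0 + p0 - l : ℕ) : ℝ) / NN - (2 * ((m : ℝ) / NN) - (l : ℝ) / NN) := by ring
          rw [h5] at h4
          exact h4
        hLB := by
          have h1 : 4 * ((((2 * NN * NN - 2 * p0 * p0 - l * l) / (6 * NN) + 1 : ℕ) : ℕ) : ℝ) * NN ≤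
              l * ((t0 + p0 - l : ℕ) : ℝ) := by exact_mod_cast hVB
          have h2 := div_le_div_of_nonneg_right h1 (by positivity : (0:ℝ) ≤ NN * NN)
          have h3 : 4 * ((((2 * NN * NN - 2 * p0 * p0 - l * l) / (6 * NN) + 1 : ℕ) : ℕ) : ℝ) * NN / (NN * NN) =
              4 * (((((2 * NN * NN - 2 * p0 * p0 - l * l) / (6 * NN) + 1 : ℕ) : ℕ) : ℝ) / NN) := by
            field_simp
          have h4 : (l : ℝ) * ((t0 + p0 - l : ℕ) : ℝ) / (NN * NN) =
              (l : ℝ) / NN * (((t0 + p0 - l : ℕ) : ℝ) / NN) := by field_simp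
          rw [h3, h4] at h2
          exact h2
        hG := by
          rw [Nat.cast_sub hGle]
          push_cast
          exact le_of_eq (by ring)
        hG0 := div_pos (by exact_mod_cast hG0) hn }
    · have h1 := up_ge (4 * t1 * p1) (y := NN) (by unfold NN; norm_num)
      have h2 := sub_ge (4 * t1 * p1 / NN + 1) (2 * NN)
      have h3 : (4 * (t1:ℝ) * p1) / NN - 2 * NN ≤ ((4 * t1 * p1 / NN + 1 - 2 * NN : ℕ) : ℝ) := by
        push_cast at h1 h2 ⊢
        linarith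
      have h4 := div_le_div_of_nonneg_right h3 hn.le
      have h5 : ((4 * (t1:ℝ) * p1) / NN - 2 * NN) / NN = 4 * ((t1 : ℝ) / NN * ((p1 : ℝ) / NN)) - 2 := by field_simp
      rw [h5] at h4
      exact h4
    · have h1 := up_ge (3 * t1 * p1) (y := NN) (by unfold NN; norm_num)
      have h2 := sub_ge (3 * t1 * p1 / NN + 1) NN
      have h3 : (3 * (t1:ℝ) * p1) / NN - NN ≤ ((3 * t1 * p1 / NN + 1 - NN : ℕ) : ℝ) := by
        push_cast at h1 h2 ⊢
        linarith
      have h4 := div_le_div_of_nonneg_right h3 hn.le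
      have h5 : ((3 * (t1:ℝ) * p1) / NN - NN) / NN = 3 * ((t1 : ℝ) / NN * ((p1 : ℝ) / NN)) - 1 := by field_simp
      rw [h5] at h4
      exact h4

end Pool.Agent.Helper35.SP
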